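import Pool.Agent.Y6.Stm3

/-!
Triad sums in extended reals: common lemmas.
-/

open MeasureTheory Set
open scoped ENNReal

set_option autoImplicit false

namespace Pool.Agent.Y197.NS

open Pool.Agent.Y6
open Pool.Agent.H356R3.NS hiding K sq
open H459R3.NS (e2 N)

/-- the triad sum -/
noncomputable def B (α β γ : K → ℝ≥0∞) : ℝ≥0∞ := ∑' q : K, ∑' k : K, α q * β k * γ (-q - k)

lemma B_swap12 (α β γ : K → ℝ≥0∞) : B α β γ = B β α γ := by
  unfold B
  rw [ENNReal.tsum_comm]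
  refine tsum_congr fun k => tsum_congr fun q => ?_
  rw [show -k - q = -q - k by abel, mul_comm (α q)]

lemma B_swap23 (α β γ : K → ℝ≥0∞) : B α β γ = B α γ β := by
  unfold B
  refine tsum_congr fun q => ?_
  rw [← (Equiv.subLeft (-q)).tsum_eq]
  refine tsum_congr fun k => ?_
  simp only [Equiv.subLeft_apply]
  rw [show -q - (-q - k) = k by abel]
  ring

/-- the sum over `k` and `l` is the triad sum -/
lemma tt_eq (α β γ : K → ℝ≥0∞) (hα : ∀ k, α (-k) = α k) :
    ∑' k : K, ∑' l : K, α k * β l * γ (k - l) = B α β γ := by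
  unfold B
  rw [← (Equiv.neg K).tsum_eq]
  refine tsum_congr fun k => tsum_congr fun l => ?_
  simp only [Equiv.neg_apply]
  rw [hα]

lemma tsum_tsum_add (f g : K → K → ℝ≥0∞) :
    ∑' k, ∑' l, (f k l + g k l) = ∑' k, ∑' l, f k l + ∑' k, ∑' l, g k l := by
  rw [← ENNReal.tsum_add]
  exact tsum_congr fun k => ENNReal.tsum_add

/-- the sizes of the coefficients -/
noncomputable def E (y : K → C3) (k : K) : ℝ≥0∞ := ENNReal.ofReal (en (y k))

/-- the frequency -/
noncomputable def n (k : K) : ℝ≥0∞ := ENNReal.ofReal (nk k)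

open Classical in
/-- restriction -/
noncomputable def res (W : Set K) (f : K → ℝ≥0∞) (k : K) : ℝ≥0∞ := if k ∈ W then f k else 0

lemma en_neg {y : K → C3} (hs : Sym y) (k : K) : en (y (-k)) = en (y k) := by
  have h1 : y (-k) = fun i => star (y k i) := funext fun i => hs k i
  rw [h1]
  unfold en en2
  simp

lemma E_neg {y : K → C3} (hs : Sym y) (k : K) : E y (-k) = E y k := by
  unfold E
  rw [en_neg hs]

lemma n_neg (k : K) : n (-k) = n k := by
  unfold n
  rw [nk_neg]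

lemma E_sq (y : K → C3) (k : K) : E y k ^ 2 = ENNReal.ofReal (en2 (y k)) := by
  unfold E
  rw [← ENNReal.ofReal_pow (en_nonneg _), en_sq]

lemma n_sq (k : K) : n k ^ 2 = ENNReal.ofReal (qk k) := by
  unfold n
  rw [← ENNReal.ofReal_pow (nk_nonneg _), nk_sq]

lemma E_zero {y : K → C3} (h : y 0 = 0) : E y 0 = 0 := by
  unfold E
  rw [h, en_zero, ENNReal.ofReal_zero]

lemma N_le_n (k : K) : (N k : ℝ≥0∞) ≤ n k := by
  unfold n
  have h1 := H459R3.NS.N_sq_le k
  have h2 : (N k : ℝ) ≤ nk k := by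
    unfold nk Pool.Agent.H356R3.NS.sq
    exact Real.le_sqrt_of_sq_le h1
  rw [← ENNReal.ofReal_natCast]
  exact ENNReal.ofReal_le_ofReal h2

lemma qk_nonneg (k : K) : 0 ≤ qk k := sq_nonneg' k

lemma qk_le_pw (k : K) : qk k ≤ pw k ^ 2 := by
  have h : qk k = nk k ^ 2 := (nk_sq k).symm
  rw [h]
  exact pow_le_pow_left₀ (nk_nonneg k) (nk_le_pw k) 2

lemma summ_wn {y : K → C3} (hy : RapK y) {ρ : K → ℝ} {C : ℝ} {m : ℕ} (h : ∀ k, |ρ k| ≤ C * pw k ^ m) :
    Summable fun k => ρ k * en2 (y k) := by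
  obtain ⟨C1, hC1⟩ := hy (m + 4)
  obtain ⟨C2, hC2⟩ := hy 0
  have hC0 : 0 ≤ C := by
    have := (abs_nonneg _).trans (h 0)
    have h2 : (0 : ℝ) < pw 0 ^ m := pow_pos (pw_pos 0) m
    by_contra hc
    have := mul_neg_of_neg_of_pos (not_le.1 hc) h2
    linarith
  obtain ⟨s1, s2⟩ := summ_of_bound (f := fun k => ‖y k‖) m (C := C1) hC1
  refine Summable.of_norm_bounded (s1.mul_left (C * (3 * C2))) fun k => ?_
  rw [Real.norm_eq_abs, abs_mul, abs_of_nonneg (en2_nonneg _)]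
  have h1 := h k
  have h2 := en2_le (y k)
  have h3 : ‖y k‖ ≤ C2 := by simpa using hC2 k
  have h4 := s2 k
  have h5 := norm_nonneg (y k)
  have h6 : 0 < pw k ^ m := pow_pos (pw_pos k) m
  have h7 := en2_nonneg (y k)
  have h8 : 0 ≤ C2 := h5.trans h3
  calc |ρ k| * en2 (y k) ≤ (C * pw k ^ m) * (3 * ‖y k‖ ^ 2) := by gcongr
    _ = (C * (3 * ‖y k‖)) * (pw k ^ m * ‖y k‖) := by ring
    _ ≤ (C * (3 * C2)) * (C1 * (1 / pw k) ^ 4) := by gcongr

/-- conversion of weighted energies -/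
lemma wn_enn {y : K → C3} (hy : RapK y) {ρ : K → ℝ} {C : ℝ} {m : ℕ} (h0 : ∀ k, 0 ≤ ρ k)
    (h : ∀ k, ρ k ≤ C * pw k ^ m) :
    ∑' k, ENNReal.ofReal (ρ k) * E y k ^ 2 = ENNReal.ofReal (wn ρ y) := by
  unfold wn
  rw [ENNReal.ofReal_tsum_of_nonneg (fun k => mul_nonneg (h0 k) (en2_nonneg _))
    (summ_wn hy (C := C) (m := m) fun k => by rw [abs_of_nonneg (h0 k)]; exact h k)]
  refine tsum_congr fun k => ?_
  rw [ENNReal.ofReal_mul (h0 k), E_sq]

lemma wn_nonneg {y : K → C3} {ρ : K → ℝ} (h0 : ∀ k, 0 ≤ ρ k) : 0 ≤ wn ρ y :=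
  tsum_nonneg fun k => mul_nonneg (h0 k) (en2_nonneg _)

lemma ofReal_rpow_half {x : ℝ} (hx : 0 ≤ x) : ENNReal.ofReal x ^ (1 / 2 : ℝ) = ENNReal.ofReal (Real.sqrt x) := by
  rw [ENNReal.ofReal_rpow_of_nonneg hx (by norm_num), Real.sqrt_eq_rpow]

lemma e2_mono {f g : K → ℝ≥0∞} (h : ∀ k, f k ≤ g k) : e2 f ≤ e2 g := by
  unfold H459R3.NS.e2
  exact ENNReal.rpow_le_rpow (ENNReal.tsum_le_tsum fun k => pow_le_pow_left' (h k) 2) (by norm_num)

/-- the bound of a triad with one factor of the first kind -/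
lemma tau_le {y : K → C3} (hd : ∀ k, dt k (y k) = 0) (k l : K) :
    ‖tau y k l‖ ≤ nk k * en (y l) * (en (y k) * en (y (k - l))) ∧
    ‖tau y k l‖ ≤ nk (k - l) * en (y l) * (en (y k) * en (y (k - l))) := by
  have a1 : ‖dt k (y l)‖ ≤ nk k * en (y l) := norm_dt_le _ _
  have a2 : ‖dt k (y l)‖ ≤ nk (k - l) * en (y l) := by
    have : dt k (y l) = dt (k - l) (y l) := by rw [dt_sub, hd l, sub_zero]
    rw [this]
    exact norm_dt_le _ _
  have a3 := norm_ipc_le (y k) (y (k - l))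
  unfold tau
  rw [norm_mul]
  constructor
  · exact mul_le_mul a1 a3 (norm_nonneg _) (mul_nonneg (nk_nonneg _) (en_nonneg _))
  · exact mul_le_mul a2 a3 (norm_nonneg _) (mul_nonneg (nk_nonneg _) (en_nonneg _))

/-- the conversion of `St_B0` for weights `|k|` on the low part -/
lemma low_eq {y : K → C3} (hy : RapK y) (h : K → ℕ) {M : ℕ} (hM : 1 ≤ M) :
    (ENNReal.ofReal (Real.sqrt M) * ∑' q, ENNReal.ofReal (Real.sqrt (max (h q) 1 : ℕ)) *
      res {k | h k ≤ M} (fun k => n k * E y k) q ^ 2) ^ (1 / 2 : ℝ)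
      = ENNReal.ofReal (Real.sqrt (M * XM h M y)) := by
  have hM0 : (0 : ℝ) < M := by exact_mod_cast hM
  have h0 : ∀ k, 0 ≤ ind {k | h k ≤ M} k * (Real.sqrt ((max (h k) 1 : ℕ) / M) * qk k) := by
    intro k
    unfold ind
    split_ifs
    · rw [one_mul]; exact mul_nonneg (Real.sqrt_nonneg _) (qk_nonneg k)
    · simp
  have hb : ∀ k, ind {k | h k ≤ M} k * (Real.sqrt ((max (h k) 1 : ℕ) / M) * qk k) ≤ 1 * pw k ^ 2 := by
    intro k
    unfold ind
    split_ifs with hk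
    · rw [one_mul]
      have h1 : Real.sqrt ((max (h k) 1 : ℕ) / M) ≤ 1 := by
        rw [← Real.sqrt_one]
        apply Real.sqrt_le_sqrt
        rw [div_le_one hM0]
        have : max (h k) 1 ≤ M := max_le hk hM
        exact_mod_cast this
      exact mul_le_mul h1 (qk_le_pw k) (qk_nonneg k) zero_le_one
    · rw [zero_mul]
      have := pow_pos (pw_pos k) 2
      linarith
  have hX : 0 ≤ XM h M y := wn_nonneg h0
  have e1 : ENNReal.ofReal (Real.sqrt M) * ∑' q, ENNReal.ofReal (Real.sqrt (max (h q) 1 : ℕ)) *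
      res {k | h k ≤ M} (fun k => n k * E y k) q ^ 2 = ENNReal.ofReal (M * XM h M y) := by
    have hsM : ENNReal.ofReal (M : ℝ) = ENNReal.ofReal (Real.sqrt M) * ENNReal.ofReal (Real.sqrt M) := by
      rw [← ENNReal.ofReal_mul (Real.sqrt_nonneg _), Real.mul_self_sqrt hM0.le]
    rw [ENNReal.ofReal_mul hM0.le, hsM, mul_assoc]
    congr 1
    unfold XM
    rw [← wn_enn hy h0 hb, ← ENNReal.tsum_mul_left]
    refine tsum_congr fun q => ?_
    unfold res ind
    by_cases hq : q ∈ {k | h k ≤ M}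
    · have hs : ENNReal.ofReal (Real.sqrt (max (h q) 1 : ℕ)) = ENNReal.ofReal (Real.sqrt M) *
          ENNReal.ofReal (Real.sqrt ((max (h q) 1 : ℕ) / M)) := by
        rw [← ENNReal.ofReal_mul (Real.sqrt_nonneg _), ← Real.sqrt_mul hM0.le, mul_div_cancel₀ _ hM0.ne']
      rw [if_pos hq, if_pos hq, one_mul, mul_pow, n_sq, hs, ENNReal.ofReal_mul (Real.sqrt_nonneg _)]
      ring
    · rw [if_neg hq, if_neg hq]
      simp
  rw [e1, ofReal_rpow_half (mul_nonneg hM0.le hX)]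

lemma XM_nonneg {y : K → C3} (h : K → ℕ) (M : ℕ) : 0 ≤ XM h M y := by
  refine wn_nonneg fun k => ?_
  unfold ind
  split_ifs
  · rw [one_mul]; exact mul_nonneg (Real.sqrt_nonneg _) (qk_nonneg k)
  · simp

/-- `‖|k| e 1_W‖` -/
lemma e2_w {y : K → C3} (hy : RapK y) (W : Set K) :
    e2 (res W fun k => n k * E y k) = ENNReal.ofReal (Real.sqrt (wn (fun k => ind W k * qk k) y)) := by
  have h0 : ∀ k, 0 ≤ ind W k * qk k := by
    intro k
    unfold ind
    split_ifs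
    · rw [one_mul]; exact qk_nonneg k
    · simp
  have hb : ∀ k, ind W k * qk k ≤ 1 * pw k ^ 2 := by
    intro k
    unfold ind
    split_ifs
    · rw [one_mul, one_mul]; exact qk_le_pw k
    · rw [zero_mul]
      have := pow_pos (pw_pos k) 2
      linarith
  unfold H459R3.NS.e2
  rw [← ofReal_rpow_half (wn_nonneg h0), ← wn_enn hy h0 hb]
  congr 1
  refine tsum_congr fun q => ?_
  unfold res ind
  by_cases hq : q ∈ W
  · rw [if_pos hq, if_pos hq, one_mul, mul_pow, n_sq]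
  · rw [if_neg hq, if_neg hq]; simp

/-- `‖e 1_W‖` -/
lemma e2_e {y : K → C3} (hy : RapK y) (W : Set K) :
    e2 (res W (E y)) = ENNReal.ofReal (Real.sqrt (wn (ind W) y)) := by
  have h0 : ∀ k, 0 ≤ ind W k := by
    intro k
    unfold ind
    split_ifs
    · exact zero_le_one
    · exact le_rfl
  have hb : ∀ k, ind W k ≤ 1 * pw k ^ 0 := by
    intro k
    unfold ind
    split_ifs <;> simp
  unfold H459R3.NS.e2
  rw [← ofReal_rpow_half (wn_nonneg h0), ← wn_enn hy h0 hb]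
  congr 1
  refine tsum_congr fun q => ?_
  unfold res ind
  by_cases hq : q ∈ W
  · rw [if_pos hq, if_pos hq]; simp
  · rw [if_neg hq, if_neg hq]; simp

lemma e2_P {y : K → C3} (hy : RapK y) :
    e2 (fun k => n k * (n k * E y k)) = ENNReal.ofReal (Real.sqrt (wn (fun k => qk k ^ 2) y)) := by
  have h0 : ∀ k : K, 0 ≤ qk k ^ 2 := fun k => sq_nonneg _
  have hb : ∀ k : K, qk k ^ 2 ≤ 1 * pw k ^ 4 := by
    intro k
    rw [one_mul]
    calc qk k ^ 2 ≤ (pw k ^ 2) ^ 2 := pow_le_pow_left₀ (qk_nonneg k) (qk_le_pw k) 2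
      _ = pw k ^ 4 := by ring
  unfold H459R3.NS.e2
  rw [← ofReal_rpow_half (wn_nonneg h0), ← wn_enn hy h0 hb]
  congr 1
  refine tsum_congr fun q => ?_
  rw [ENNReal.ofReal_pow (qk_nonneg q), ← n_sq]
  ring

end Pool.Agent.Y197.NS
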