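import Pool.Agent.Y197.NS.L2

/-!
Production of the enstrophy.
-/

open MeasureTheory Set
open scoped ENNReal

set_option autoImplicit false

namespace Pool.Agent.Y197.NS

open Pool.Agent.Y6
open Pool.Agent.H356R3.NS hiding K sq
open H459R3.NS (e2 N)

/-- the pointwise bound for the weight `|k|²` -/
lemma key_qk {y : K → C3} (hd : ∀ k, dt k (y k) = 0) (k l : K) :
    |qk k - qk (k - l)| * ‖tau y k l‖
      ≤ 2 * ((nk k * en (y k)) * (nk l * en (y l)) * (nk (k - l) * en (y (k - l)))) := by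
  have a1 : ‖dt k (y l)‖ ≤ nk k * en (y l) := norm_dt_le _ _
  have a2 : ‖dt k (y l)‖ ≤ nk (k - l) * en (y l) := by
    have : dt k (y l) = dt (k - l) (y l) := by rw [dt_sub, hd l, sub_zero]
    rw [this]
    exact norm_dt_le _ _
  have a3 := norm_ipc_le (y k) (y (k - l))
  have a4 : |qk k - qk (k - l)| ≤ nk l * (nk k + nk (k - l)) := by
    rw [show qk k = nk k ^ 2 from (nk_sq k).symm, show qk (k - l) = nk (k - l) ^ 2 from (nk_sq _).symm,
      sq_sub_sq, abs_mul, mul_comm]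
    have b1 := abs_nk_sub k l
    have b2 : |nk k + nk (k - l)| = nk k + nk (k - l) :=
      abs_of_nonneg (add_nonneg (nk_nonneg _) (nk_nonneg _))
    rw [b2]
    exact mul_le_mul_of_nonneg_right b1 (add_nonneg (nk_nonneg _) (nk_nonneg _))
  have n1 := nk_nonneg k
  have n2 := nk_nonneg (k - l)
  have n3 := nk_nonneg l
  have e1 := en_nonneg (y k)
  have e2 := en_nonneg (y l)
  have e3 := en_nonneg (y (k - l))
  unfold tau
  rw [norm_mul]
  have c1 : (nk k + nk (k - l)) * ‖dt k (y l)‖ ≤ 2 * (nk k * nk (k - l) * en (y l)) := by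
    have d1 : nk k * ‖dt k (y l)‖ ≤ nk k * (nk (k - l) * en (y l)) :=
      mul_le_mul_of_nonneg_left a2 n1
    have d2 : nk (k - l) * ‖dt k (y l)‖ ≤ nk (k - l) * (nk k * en (y l)) :=
      mul_le_mul_of_nonneg_left a1 n2
    nlinarith
  calc |qk k - qk (k - l)| * (‖dt k (y l)‖ * ‖ipc (y k) (y (k - l))‖)
      ≤ (nk l * (nk k + nk (k - l))) * (‖dt k (y l)‖ * (en (y k) * en (y (k - l)))) := by
        gcongr
    _ = nk l * (en (y k) * en (y (k - l))) * ((nk k + nk (k - l)) * ‖dt k (y l)‖) := by ring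
    _ ≤ nk l * (en (y k) * en (y (k - l))) * (2 * (nk k * nk (k - l) * en (y l))) := by gcongr
    _ = _ := by ring

lemma mul_le_sq_add (a b : ℝ≥0∞) : a * b ≤ a ^ 2 + b ^ 2 := by
  rcases le_total a b with h | h
  · calc a * b ≤ b * b := mul_le_mul' h le_rfl
      _ = b ^ 2 := (sq b).symm
      _ ≤ _ := le_add_self
  · calc a * b ≤ a * a := mul_le_mul' le_rfl h
      _ = a ^ 2 := (sq a).symm
      _ ≤ _ := le_self_add

/-- the ball of radius `|k|` -/
lemma finite_ball (r : ℝ) : {q : K | nk q ≤ r}.Finite := by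
  refine (H459R3.NS.finite_box 0 (⌊r⌋₊)).subset fun q hq => ?_
  rw [mem_ofPred_eq, sub_zero, Nat.le_floor_iff]
  · exact (Real.le_sqrt_of_sq_le (H459R3.NS.N_sq_le q)).trans hq
  · exact (nk_nonneg q).trans hq

lemma card_ball (r : ℝ) (hr : 1 ≤ r) (F : Finset K) (hF : ∀ q ∈ F, nk q ≤ r) :
    (F.card : ℝ) ≤ 27 * r ^ 3 := by
  have h1 : F ⊆ Finset.Icc (fun _ => -(⌊r⌋₊ : ℤ)) (fun _ => (⌊r⌋₊ : ℤ)) := by
    intro q hq
    rw [Finset.mem_Icc]
    have h2 : ∀ i, |q i| ≤ (⌊r⌋₊ : ℤ) := by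
      intro i
      have h3 := (abs_le_nk q i).trans (hF q hq)
      have h4 : ((q i).natAbs : ℝ) ≤ r := by
        rw [Nat.cast_natAbs]
        exact_mod_cast h3
      have h5 : (q i).natAbs ≤ ⌊r⌋₊ := Nat.le_floor h4
      rw [Int.abs_eq_natAbs]
      exact_mod_cast h5
    exact ⟨fun i => (abs_le.1 (h2 i)).1, fun i => (abs_le.1 (h2 i)).2⟩
  have h2 := Finset.card_le_card h1
  have h3 : (Finset.Icc (fun _ : Fin 3 => -(⌊r⌋₊ : ℤ)) (fun _ => (⌊r⌋₊ : ℤ))).card = (2 * ⌊r⌋₊ + 1) ^ 3 := by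
    rw [Pi.card_Icc]
    simp only [Int.card_Icc, Finset.prod_const, Finset.card_univ, Fintype.card_fin]
    congr 1
    omega
  rw [h3] at h2
  have h4 : (F.card : ℝ) ≤ (2 * (⌊r⌋₊ : ℝ) + 1) ^ 3 := by exact_mod_cast h2
  have h5 : (⌊r⌋₊ : ℝ) ≤ r := Nat.floor_le (by linarith)
  calc (F.card : ℝ) ≤ (2 * (⌊r⌋₊ : ℝ) + 1) ^ 3 := h4
    _ ≤ (3 * r) ^ 3 := pow_le_pow_left₀ (by positivity) (by linarith) 3
    _ = 27 * r ^ 3 := by ring

open Classical in
/-- the count of the ball -/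
lemma tsum_ball (k : K) (hk : k ≠ 0) :
    ∑' q : K, (if nk q ≤ nk k then (1 : ℝ≥0∞) else 0) ≤ 27 * n k ^ 3 := by
  rw [ENNReal.tsum_eq_iSup_sum]
  refine iSup_le fun F => ?_
  rw [← Finset.sum_filter, Finset.sum_const, nsmul_eq_mul, mul_one]
  have h1 := card_ball (nk k) (one_le_nk hk) (F.filter fun q => nk q ≤ nk k)
    fun q hq => (Finset.mem_filter.1 hq).2
  unfold n
  rw [← ENNReal.ofReal_natCast, ← ENNReal.ofReal_pow (nk_nonneg _),
    show (27 : ℝ≥0∞) = ENNReal.ofReal 27 by simp, ← ENNReal.ofReal_mul (by norm_num)]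
  exact ENNReal.ofReal_le_ofReal h1

open Classical in
lemma sigma_le (v : K → ℝ≥0∞) (k : K) (hk : k ≠ 0) :
    ∑' q : K, (if nk q ≤ nk k then v q else 0) ≤ (27 * n k ^ 3) ^ (1 / 2 : ℝ) * e2 v := by
  have h1 : ∀ q, (if nk q ≤ nk k then v q else 0) = (if nk q ≤ nk k then (1 : ℝ≥0∞) else 0) * v q := by
    intro q
    split_ifs <;> simp
  simp_rw [h1]
  refine (H459R3.NS.enn_cs _ _).trans ?_
  unfold H459R3.NS.e2
  gcongr
  refine (le_of_eq (tsum_congr fun q => ?_)).trans (tsum_ball k hk)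
  split_ifs <;> simp

open Classical in
/-- the cubic sum of the high part -/
lemma high_cube (v : K → ℝ≥0∞) (h0 : v 0 = 0) :
    B v v v ≤ 6 * ∑' k, v k ^ 2 * ((27 * n k ^ 3) ^ (1 / 2 : ℝ) * e2 v) := by
  set t : K → K → ℝ≥0∞ := fun q k => if nk q ≤ nk k then v q * v k ^ 2 else 0 with ht
  have h1 : ∀ q k, v q * v k * v (-q - k) ≤
      ((t q k + t q (-q - k)) + (t k q + t k (-q - k))) + (t (-q - k) q + t (-q - k) k) := by
    intro q k
    set m := -q - k
    have a1 : ∀ a b c : K, nk a ≤ nk b → nk a ≤ nk c → v a * v b * v c ≤ t a b + t a c := by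
      intro a b c h1 h2
      simp only [ht]
      rw [if_pos h1, if_pos h2, ← mul_add, mul_assoc]
      exact mul_le_mul' le_rfl (mul_le_sq_add _ _)
    rcases le_total (nk q) (nk k) with h1 | h1
    · rcases le_total (nk q) (nk m) with h2 | h2
      · exact (a1 q k m h1 h2).trans (le_self_add.trans le_self_add)
      · refine (le_of_eq ?_).trans ((a1 m q k h2 (h2.trans h1)).trans le_add_self)
        ring
    · rcases le_total (nk k) (nk m) with h2 | h2
      · refine (le_of_eq ?_).trans ((a1 k q m h1 h2).trans (le_add_self.trans le_self_add))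
        ring
      · refine (le_of_eq ?_).trans ((a1 m q k (h2.trans h1) h2).trans le_add_self)
        ring
  have T : ∑' k, ∑' q, t q k ≤ ∑' k, v k ^ 2 * ((27 * n k ^ 3) ^ (1 / 2 : ℝ) * e2 v) := by
    refine ENNReal.tsum_le_tsum fun k => ?_
    by_cases hk : k = 0
    · simp only [ht, hk, h0]
      simp
    · have e1 : ∀ q, t q k = v k ^ 2 * (if nk q ≤ nk k then v q else 0) := by
        intro q
        simp only [ht]
        split_ifs
        · ring
        · simp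
      simp_rw [e1]
      rw [ENNReal.tsum_mul_left]
      exact mul_le_mul' le_rfl (sigma_le v k hk)
  have r1 : ∑' q, ∑' k, t q k ≤ ∑' k, v k ^ 2 * ((27 * n k ^ 3) ^ (1 / 2 : ℝ) * e2 v) := by
    rw [ENNReal.tsum_comm]
    exact T
  have r2 : ∑' q, ∑' k, t q (-q - k) ≤ ∑' k, v k ^ 2 * ((27 * n k ^ 3) ^ (1 / 2 : ℝ) * e2 v) := by
    refine (le_of_eq (tsum_congr fun q => ?_)).trans r1
    exact (Equiv.subLeft (-q)).tsum_eq (t q)
  have r3 : ∑' q, ∑' k, t k q ≤ ∑' k, v k ^ 2 * ((27 * n k ^ 3) ^ (1 / 2 : ℝ) * e2 v) := T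
  have r4 : ∑' q, ∑' k, t k (-q - k) ≤ ∑' k, v k ^ 2 * ((27 * n k ^ 3) ^ (1 / 2 : ℝ) * e2 v) := by
    rw [ENNReal.tsum_comm]
    refine (le_of_eq (tsum_congr fun k => tsum_congr fun q => ?_)).trans r2
    rw [show -q - k = -k - q by abel]
  have r5 : ∑' q, ∑' k, t (-q - k) q ≤ ∑' k, v k ^ 2 * ((27 * n k ^ 3) ^ (1 / 2 : ℝ) * e2 v) := by
    refine (le_of_eq (tsum_congr fun q => ?_)).trans r3
    exact (Equiv.subLeft (-q)).tsum_eq (fun k => t k q)
  have r6 : ∑' q, ∑' k, t (-q - k) k ≤ ∑' k, v k ^ 2 * ((27 * n k ^ 3) ^ (1 / 2 : ℝ) * e2 v) := by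
    rw [ENNReal.tsum_comm]
    refine (le_of_eq (tsum_congr fun k => tsum_congr fun q => ?_)).trans r5
    rw [show -q - k = -k - q by abel]
  calc B v v v ≤ ∑' q, ∑' k, (((t q k + t q (-q - k)) + (t k q + t k (-q - k))) +
        (t (-q - k) q + t (-q - k) k)) :=
        ENNReal.tsum_le_tsum fun q => ENNReal.tsum_le_tsum fun k => h1 q k
    _ = ((∑' q, ∑' k, t q k + ∑' q, ∑' k, t q (-q - k)) + (∑' q, ∑' k, t k q + ∑' q, ∑' k, t k (-q - k)))
        + (∑' q, ∑' k, t (-q - k) q + ∑' q, ∑' k, t (-q - k) k) := by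
        rw [tsum_tsum_add, tsum_tsum_add, tsum_tsum_add, tsum_tsum_add, tsum_tsum_add]
    _ ≤ ((∑' k, v k ^ 2 * ((27 * n k ^ 3) ^ (1 / 2 : ℝ) * e2 v) +
          ∑' k, v k ^ 2 * ((27 * n k ^ 3) ^ (1 / 2 : ℝ) * e2 v)) +
        (∑' k, v k ^ 2 * ((27 * n k ^ 3) ^ (1 / 2 : ℝ) * e2 v) +
          ∑' k, v k ^ 2 * ((27 * n k ^ 3) ^ (1 / 2 : ℝ) * e2 v))) +
        (∑' k, v k ^ 2 * ((27 * n k ^ 3) ^ (1 / 2 : ℝ) * e2 v) +
          ∑' k, v k ^ 2 * ((27 * n k ^ 3) ^ (1 / 2 : ℝ) * e2 v)) := by gcongr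
    _ = _ := by ring

/-- interpolation -/
lemma interp (v : K → ℝ≥0∞) :
    ∑' k, v k ^ 2 * ((27 * n k ^ 3) ^ (1 / 2 : ℝ) * e2 v) ≤
      6 * ((∑' k, v k ^ 2) * ∑' k, (n k * v k) ^ 2) ^ (3 / 4 : ℝ) := by
  set Z := ∑' k, v k ^ 2 with hZ
  set P := ∑' k, (n k * v k) ^ 2 with hP
  have h27 : (27 : ℝ≥0∞) ^ (1 / 2 : ℝ) ≤ 6 := by
    calc (27 : ℝ≥0∞) ^ (1 / 2 : ℝ) ≤ (36 : ℝ≥0∞) ^ (1 / 2 : ℝ) :=
          ENNReal.rpow_le_rpow (by norm_num) (by norm_num)
      _ = ((6 : ℝ≥0∞) ^ (2 : ℝ)) ^ (1 / 2 : ℝ) := by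
        congr 1
        rw [show (2 : ℝ) = ((2 : ℕ) : ℝ) by norm_num, ENNReal.rpow_natCast]
        norm_num
      _ = 6 := by
        rw [← ENNReal.rpow_mul]
        norm_num
  have h1 : ∀ k, v k ^ 2 * ((27 * n k ^ 3) ^ (1 / 2 : ℝ) * e2 v)
      = ((27 : ℝ≥0∞) ^ (1 / 2 : ℝ) * e2 v) * ((n k ^ (1 / 2 : ℝ) * v k) * (n k * v k)) := by
    intro k
    have e1 : (n k ^ 3) ^ (1 / 2 : ℝ) = n k ^ (1 / 2 : ℝ) * n k := by
      have e2 : n k ^ 3 = n k * n k ^ 2 := by ring
      rw [e2, ENNReal.mul_rpow_of_nonneg _ _ (by norm_num)]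
      congr 1
      rw [← ENNReal.rpow_natCast, ← ENNReal.rpow_mul]
      norm_num
    rw [ENNReal.mul_rpow_of_nonneg _ _ (by norm_num), e1]
    ring
  simp_rw [h1]
  rw [ENNReal.tsum_mul_left]
  have h2 : ∑' k, (n k ^ (1 / 2 : ℝ) * v k) * (n k * v k) ≤
      (∑' k, (n k ^ (1 / 2 : ℝ) * v k) ^ 2) ^ (1 / 2 : ℝ) * P ^ (1 / 2 : ℝ) := H459R3.NS.enn_cs _ _
  have h3 : ∑' k, (n k ^ (1 / 2 : ℝ) * v k) ^ 2 ≤ Z ^ (1 / 2 : ℝ) * P ^ (1 / 2 : ℝ) := by
    have e1 : ∀ k, (n k ^ (1 / 2 : ℝ) * v k) ^ 2 = v k * (n k * v k) := by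
      intro k
      rw [mul_pow, H459R3.NS.enn_half_sq]
      ring
    simp_rw [e1]
    exact H459R3.NS.enn_cs _ _
  have h4 : e2 v = Z ^ (1 / 2 : ℝ) := rfl
  rw [h4]
  calc (27 : ℝ≥0∞) ^ (1 / 2 : ℝ) * Z ^ (1 / 2 : ℝ) * ∑' k, (n k ^ (1 / 2 : ℝ) * v k) * (n k * v k)
      ≤ 6 * Z ^ (1 / 2 : ℝ) * ((Z ^ (1 / 2 : ℝ) * P ^ (1 / 2 : ℝ)) ^ (1 / 2 : ℝ) * P ^ (1 / 2 : ℝ)) := by
        refine mul_le_mul' (mul_le_mul' h27 le_rfl) (h2.trans (mul_le_mul' ?_ le_rfl))
        exact ENNReal.rpow_le_rpow h3 (by norm_num)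
    _ = 6 * (Z * P) ^ (3 / 4 : ℝ) := by
        rw [ENNReal.mul_rpow_of_nonneg _ _ (by norm_num : (0 : ℝ) ≤ 1 / 2),
          ENNReal.mul_rpow_of_nonneg _ _ (by norm_num : (0 : ℝ) ≤ 3 / 4), ← ENNReal.rpow_mul,
          ← ENNReal.rpow_mul, mul_assoc]
        congr 1
        have q1 : Z ^ (3 / 4 : ℝ) = Z ^ (1 / 2 : ℝ) * Z ^ (1 / 2 * (1 / 2) : ℝ) := by
          rw [← ENNReal.rpow_add_of_nonneg _ _ (by norm_num) (by norm_num)]
          norm_num
        have q2 : P ^ (3 / 4 : ℝ) = P ^ (1 / 2 * (1 / 2) : ℝ) * P ^ (1 / 2 : ℝ) := by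
          rw [← ENNReal.rpow_add_of_nonneg _ _ (by norm_num) (by norm_num)]
          norm_num
        rw [q1, q2]
        ring

open Classical in
lemma split_le (V : Set K) (w : K → ℝ≥0∞) :
    B w w w ≤ 3 * B (res V w) w w + B (res Vᶜ w) (res Vᶜ w) (res Vᶜ w) := by
  have h1 : ∀ q k, w q * w k * w (-q - k) ≤
      ((res V w q * w k * w (-q - k) + w q * res V w k * w (-q - k)) + w q * w k * res V w (-q - k))
        + res Vᶜ w q * res Vᶜ w k * res Vᶜ w (-q - k) := by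
    intro q k
    by_cases hq : q ∈ V
    · refine (le_of_eq ?_).trans (((le_self_add).trans le_self_add).trans le_self_add)
      unfold res
      rw [if_pos hq]
    · by_cases hk : k ∈ V
      · refine (le_of_eq ?_).trans (((le_add_self).trans le_self_add).trans le_self_add)
        unfold res
        rw [if_pos hk]
      · by_cases hm : -q - k ∈ V
        · refine (le_of_eq ?_).trans ((le_add_self).trans le_self_add)
          unfold res
          rw [if_pos hm]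
        · refine (le_of_eq ?_).trans le_add_self
          unfold res
          rw [if_pos (by simpa using hq), if_pos (by simpa using hk), if_pos (by simpa using hm)]
  have r1 : B w (res V w) w = B (res V w) w w := B_swap12 _ _ _
  have r2 : B w w (res V w) = B (res V w) w w := by rw [B_swap23, B_swap12]
  calc B w w w ≤ ∑' q, ∑' k, (((res V w q * w k * w (-q - k) + w q * res V w k * w (-q - k))
        + w q * w k * res V w (-q - k)) + res Vᶜ w q * res Vᶜ w k * res Vᶜ w (-q - k)) :=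
        ENNReal.tsum_le_tsum fun q => ENNReal.tsum_le_tsum fun k => h1 q k
    _ = ((B (res V w) w w + B w (res V w) w) + B w w (res V w))
        + B (res Vᶜ w) (res Vᶜ w) (res Vᶜ w) := by
        rw [tsum_tsum_add, tsum_tsum_add, tsum_tsum_add]
        rfl
    _ = _ := by rw [r1, r2]; ring

theorem t_H1 (h1 : St_tri) (h2 : St_B0) : Pool.Agent.Y6.St_H1 := by
  obtain ⟨C, hC, hB⟩ := h2
  have hp := Real.pi_pos
  refine ⟨12 * Real.pi * C + (72 * Real.pi) ^ 4, by positivity, ?_⟩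
  intro h H A hA hh M hM y hf
  set V : Set K := {k | h k ≤ M} with hV
  set w : K → ℝ≥0∞ := fun k => n k * E y k with hw
  have hwn : ∀ k, w (-k) = w k := fun k => by simp only [hw]; rw [n_neg, E_neg hf.sym]
  have hw0 : w 0 = 0 := by simp only [hw]; rw [E_zero hf.zero, mul_zero]
  have hVc : Vᶜ = {k | M < h k} := by
    ext k
    simp only [hV, mem_compl_iff, mem_ofPred_eq, not_le]
  have h0 : ∀ k, 0 ≤ ind {k | M < h k} k * qk k := by
    intro k
    unfold ind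
    split_ifs
    · rw [one_mul]; exact qk_nonneg k
    · simp
  have hb : ∀ k, ind {k | M < h k} k * qk k ≤ 1 * pw k ^ 2 := by
    intro k
    unfold ind
    split_ifs
    · rw [one_mul, one_mul]; exact qk_le_pw k
    · rw [zero_mul]
      have := pow_pos (pw_pos k) 2
      linarith
  set Z : ℝ := wn (fun k => ind {k | M < h k} k * qk k) y with hZ
  set P : ℝ := wn (fun k => qk k ^ 2) y with hP
  have hZ0 : 0 ≤ Z := wn_nonneg h0
  have hP0 : 0 ≤ P := wn_nonneg fun k => sq_nonneg _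
  -- the sum of the terms
  have s1 : ENNReal.ofReal |prdi qk y| ≤ ENNReal.ofReal (2 * Real.pi) *
      (3 * B (res V w) w w + B (res Vᶜ w) (res Vᶜ w) (res Vᶜ w)) := by
    have ht := (h1 y qk 1 2 hf (fun k => by
      rw [abs_of_nonneg (qk_nonneg k), one_mul]; exact qk_le_pw k)).2
    refine ht.trans ?_
    have e1 : ∀ k l, ENNReal.ofReal (|qk k - qk (k - l)| * ‖tau y k l‖) ≤ 2 * (w k * w l * w (k - l)) := by
      intro k l
      refine (ENNReal.ofReal_le_ofReal (key_qk hf.div k l)).trans (le_of_eq ?_)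
      have n1 := nk_nonneg k
      have n2 := nk_nonneg (k - l)
      have n3 := nk_nonneg l
      have e1 := en_nonneg (y k)
      have e2 := en_nonneg (y l)
      have e3 := en_nonneg (y (k - l))
      simp only [hw]
      unfold n E
      rw [← ENNReal.ofReal_mul n1, ← ENNReal.ofReal_mul n2, ← ENNReal.ofReal_mul n3,
        ← ENNReal.ofReal_mul (by positivity), ← ENNReal.ofReal_mul (by positivity),
        show (2 : ℝ≥0∞) = ENNReal.ofReal 2 by simp, ← ENNReal.ofReal_mul (by norm_num)]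
    have e2 : ∑' k, ∑' l, ENNReal.ofReal (|qk k - qk (k - l)| * ‖tau y k l‖) ≤ 2 * B w w w := by
      refine (ENNReal.tsum_le_tsum fun k => ENNReal.tsum_le_tsum fun l => e1 k l).trans (le_of_eq ?_)
      rw [← tt_eq w w w hwn, ← ENNReal.tsum_mul_left]
      exact tsum_congr fun k => ENNReal.tsum_mul_left
    calc ENNReal.ofReal Real.pi * ∑' k, ∑' l, ENNReal.ofReal (|qk k - qk (k - l)| * ‖tau y k l‖)
        ≤ ENNReal.ofReal Real.pi * (2 * B w w w) := mul_le_mul' le_rfl e2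
      _ = ENNReal.ofReal (2 * Real.pi) * B w w w := by
        rw [ENNReal.ofReal_mul (by norm_num)]
        simp only [ENNReal.ofReal_ofNat]
        ring
      _ ≤ _ := mul_le_mul' le_rfl (split_le V w)
  have s2 : B (res V w) w w ≤ ENNReal.ofReal (2 * C *
      Real.sqrt (A * M * XM h M y) * Real.sqrt (wn qk y) * Real.sqrt P) := by
    have h3 := hB h H A hA hh M hM (res V w) w w (fun k hk => by
      unfold res
      rw [if_neg (by simp only [hV, mem_ofPred_eq]; omega)]) hw0 hw0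
    rw [low_eq hf.rap h hM] at h3
    refine h3.trans ?_
    have h4 : e2 (fun l => N l * w l) ≤ ENNReal.ofReal (Real.sqrt P) := by
      rw [hP, ← e2_P hf.rap]
      exact e2_mono fun k => mul_le_mul' (N_le_n k) le_rfl
    have h5 : e2 w = ENNReal.ofReal (Real.sqrt (wn qk y)) := by
      have := e2_w hf.rap (y := y) univ
      have e1 : (res univ fun k => n k * E y k) = w := by
        funext k
        unfold res
        simp [hw]
      have e2' : (fun k => ind univ k * qk k) = qk := by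
        funext k
        unfold ind
        simp
      rwa [e1, e2'] at this
    calc ENNReal.ofReal (C * Real.sqrt A) * ENNReal.ofReal (Real.sqrt (M * XM h M y)) *
        (e2 w * e2 (fun l => N l * w l) + e2 w * e2 (fun l => N l * w l))
        ≤ ENNReal.ofReal (C * Real.sqrt A) * ENNReal.ofReal (Real.sqrt (M * XM h M y)) *
        (ENNReal.ofReal (Real.sqrt (wn qk y)) * ENNReal.ofReal (Real.sqrt P)
          + ENNReal.ofReal (Real.sqrt (wn qk y)) * ENNReal.ofReal (Real.sqrt P)) := by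
          rw [h5]
          gcongr
      _ = _ := by
        rw [← ENNReal.ofReal_mul (Real.sqrt_nonneg _), ← ENNReal.ofReal_add (by positivity) (by positivity),
          ← ENNReal.ofReal_mul (by positivity), ← ENNReal.ofReal_mul (by positivity)]
        congr 1
        rw [show A * M * XM h M y = A * (M * XM h M y) by ring, Real.sqrt_mul hA]
        ring
  have s3 : B (res Vᶜ w) (res Vᶜ w) (res Vᶜ w) ≤ ENNReal.ofReal (36 * (Z * P) ^ (3 / 4 : ℝ)) := by
    refine (high_cube _ (res_zero hw0)).trans ?_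
    refine (mul_le_mul' le_rfl (interp _)).trans ?_
    have z1 : ∑' k, res Vᶜ w k ^ 2 = ENNReal.ofReal Z := by
      rw [hZ, ← wn_enn hf.rap h0 hb, hVc]
      refine tsum_congr fun q => ?_
      unfold res ind
      by_cases hq : q ∈ {k | M < h k}
      · rw [if_pos hq, if_pos hq, one_mul, mul_pow, n_sq]
      · rw [if_neg hq, if_neg hq]; simp
    have z2 : ∑' k, (n k * res Vᶜ w k) ^ 2 ≤ ENNReal.ofReal P := by
      have hb4 : ∀ k : K, qk k ^ 2 ≤ 1 * pw k ^ 4 := by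
        intro k
        rw [one_mul]
        calc qk k ^ 2 ≤ (pw k ^ 2) ^ 2 := pow_le_pow_left₀ (qk_nonneg k) (qk_le_pw k) 2
          _ = pw k ^ 4 := by ring
      rw [hP, ← wn_enn hf.rap (fun k => sq_nonneg (qk k)) hb4]
      refine ENNReal.tsum_le_tsum fun k => ?_
      rw [ENNReal.ofReal_pow (qk_nonneg k), ← n_sq]
      unfold res
      split_ifs
      · simp only [hw]
        refine le_of_eq ?_
        ring
      · simp
    rw [z1]
    calc 6 * (6 * (ENNReal.ofReal Z * ∑' k, (n k * res Vᶜ w k) ^ 2) ^ (3 / 4 : ℝ))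
        ≤ 6 * (6 * (ENNReal.ofReal Z * ENNReal.ofReal P) ^ (3 / 4 : ℝ)) := by gcongr
      _ = _ := by
        rw [← ENNReal.ofReal_mul hZ0, ENNReal.ofReal_rpow_of_nonneg (mul_nonneg hZ0 hP0) (by norm_num),
          ENNReal.ofReal_mul (p := 36) (by norm_num), ← mul_assoc]
        congr 1
        simp only [ENNReal.ofReal_ofNat]
        norm_num
  have hZP : 0 ≤ (Z * P) ^ (3 / 4 : ℝ) := Real.rpow_nonneg (mul_nonneg hZ0 hP0) _
  refine ⟨72 * Real.pi * (Z * P) ^ (3 / 4 : ℝ), by positivity, ?_, ?_⟩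
  · have e1 : ((Z * P) ^ (3 / 4 : ℝ)) ^ 4 = Z ^ 3 * P ^ 3 := by
      rw [← Real.rpow_natCast, ← Real.rpow_mul (mul_nonneg hZ0 hP0)]
      rw [show (3 / 4 : ℝ) * ((4 : ℕ) : ℝ) = ((3 : ℕ) : ℝ) by norm_num, Real.rpow_natCast, mul_pow]
    rw [mul_pow, e1]
    have h3 : 0 ≤ Z ^ 3 * P ^ 3 := by positivity
    have h4 : 0 ≤ 12 * Real.pi * C := by positivity
    nlinarith [mul_nonneg h4 h3]
  · have s4 : ENNReal.ofReal |prdi qk y| ≤ ENNReal.ofReal (2 * Real.pi * (3 * (2 * C *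
        Real.sqrt (A * M * XM h M y) * Real.sqrt (wn qk y) * Real.sqrt P)
          + 36 * (Z * P) ^ (3 / 4 : ℝ))) := by
      refine s1.trans ?_
      rw [ENNReal.ofReal_mul (by positivity : 0 ≤ 2 * Real.pi)]
      refine mul_le_mul' le_rfl ?_
      rw [ENNReal.ofReal_add (by positivity) (by positivity), ENNReal.ofReal_mul (p := 3) (by norm_num)]
      refine add_le_add ?_ s3
      simp only [ENNReal.ofReal_ofNat]
      gcongr
    have s5 := (ENNReal.ofReal_le_ofReal_iff (by positivity)).1 s4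
    refine s5.trans ?_
    have x1 := Real.sqrt_nonneg (A * M * XM h M y)
    have x2 := Real.sqrt_nonneg (wn qk y)
    have x3 := Real.sqrt_nonneg P
    have y1 : 0 ≤ (72 * Real.pi) ^ 4 * (Real.sqrt (A * M * XM h M y) * Real.sqrt (wn qk y) * Real.sqrt P) := by
      positivity
    nlinarith [y1]

end Pool.Agent.Y197.NS
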