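import Pool.Agent.Y197.NS.Com

/-!
Production of the energy above a spectral gap.
-/

open MeasureTheory Set
open scoped ENNReal

set_option autoImplicit false

namespace Pool.Agent.Y197.NS

open Pool.Agent.Y6
open Pool.Agent.H356R3.NS hiding K sq
open H459R3.NS (e2 N)

/-- Young's inequality for the leaks -/
lemma B_young (x z w : K → ℝ≥0∞) : B x z w ≤ e2 x * e2 z * ∑' k, w k := by
  rw [B_swap23, B_swap12]
  unfold B
  rw [mul_comm, ← ENNReal.tsum_mul_right]
  refine ENNReal.tsum_le_tsum fun q => ?_
  have h1 : ∀ k, w q * x k * z (-q - k) = w q * (x k * z (-q - k)) := fun k => by ring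
  simp_rw [h1]
  rw [ENNReal.tsum_mul_left]
  refine mul_le_mul' le_rfl ?_
  refine (H459R3.NS.enn_cs _ _).trans (le_of_eq ?_)
  unfold H459R3.NS.e2
  congr 2
  rw [← (Equiv.subLeft (-q)).tsum_eq (fun i => z i ^ 2)]
  rfl

/-- the `ℓ¹` norm of the coefficients -/
lemma l1_le {y : K → C3} (hf : Fld y) :
    ∑' k, E y k ≤ ENNReal.ofReal (Real.sqrt Lam4 * Real.sqrt (wn (fun k => qk k ^ 2) y)) := by
  have h0 : ∀ k : K, 0 ≤ (1 / nk k) ^ 4 := fun k => by
    have := nk_nonneg k
    positivity
  have h1 : ∀ k, E y k = ENNReal.ofReal ((1 / nk k) ^ 2) * (n k * (n k * E y k)) := by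
    intro k
    by_cases hk : k = 0
    · rw [hk, E_zero hf.zero]; simp
    · have hp := nk_pos hk
      unfold n E
      rw [← ENNReal.ofReal_mul (nk_nonneg _), ← ENNReal.ofReal_mul (nk_nonneg _),
        ← ENNReal.ofReal_mul (by positivity)]
      congr 1
      field_simp
  calc ∑' k, E y k = ∑' k, ENNReal.ofReal ((1 / nk k) ^ 2) * (n k * (n k * E y k)) := tsum_congr h1
    _ ≤ _ := H459R3.NS.enn_cs _ _
    _ = ENNReal.ofReal (Real.sqrt Lam4) * e2 (fun k => n k * (n k * E y k)) := by
      congr 1
      have : ∀ k : K, ENNReal.ofReal ((1 / nk k) ^ 2) ^ 2 = ENNReal.ofReal ((1 / nk k) ^ 4) := by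
        intro k
        rw [← ENNReal.ofReal_pow (by positivity)]
        congr 1
        ring
      simp_rw [this]
      rw [← ENNReal.ofReal_tsum_of_nonneg h0 summ_nk4, ofReal_rpow_half (tsum_nonneg h0)]
      rfl
    _ = _ := by rw [e2_P hf.rap, ← ENNReal.ofReal_mul (Real.sqrt_nonneg _)]

open Classical in
lemma term_le {h : K → ℕ} {H A : ℝ} (hh : Height h H A) (M : ℕ) {y : K → C3} (hf : Fld y) (k l : K) :
    ENNReal.ofReal (|ind {k | 2 * M < h k} k - ind {k | 2 * M < h k} (k - l)| * ‖tau y k l‖) ≤
      (res {k | 2 * M < h k} (E y) k * res {k | 2 * M < h k} (E y) l *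
          res {k | h k ≤ M} (fun k => n k * E y k) (k - l)
        + res {k | h k ≤ M} (fun k => n k * E y k) k * res {k | 2 * M < h k} (E y) l *
          res {k | 2 * M < h k} (E y) (k - l))
      + ((n k * E y k) * res {k | M < h k ∧ h k ≤ 2 * M} (E y) l * E y (k - l)
        + (n k * E y k) * E y l * res {k | M < h k ∧ h k ≤ 2 * M} (E y) (k - l))
      + (E y k * res {k | M < h k ∧ h k ≤ 2 * M} (E y) l * (n (k - l) * E y (k - l))
        + res {k | M < h k ∧ h k ≤ 2 * M} (E y) k * E y l * (n (k - l) * E y (k - l))) := by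
  obtain ⟨t1, t2⟩ := tau_le hf.div k l
  have b1 : ENNReal.ofReal ‖tau y k l‖ ≤ n k * E y l * (E y k * E y (k - l)) := by
    unfold n E
    rw [← ENNReal.ofReal_mul (nk_nonneg _), ← ENNReal.ofReal_mul (en_nonneg _),
      ← ENNReal.ofReal_mul (mul_nonneg (nk_nonneg _) (en_nonneg _))]
    exact ENNReal.ofReal_le_ofReal t1
  have b2 : ENNReal.ofReal ‖tau y k l‖ ≤ n (k - l) * E y l * (E y k * E y (k - l)) := by
    unfold n E
    rw [← ENNReal.ofReal_mul (nk_nonneg _), ← ENNReal.ofReal_mul (en_nonneg _),
      ← ENNReal.ofReal_mul (mul_nonneg (nk_nonneg _) (en_nonneg _))]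
    exact ENNReal.ofReal_le_ofReal t2
  have c1 : h l ≤ h k + h (k - l) := by
    have := hh.add k (-(k - l))
    rw [hh.neg] at this
    rwa [← sub_eq_add_neg, sub_sub_cancel] at this
  have c2 : h k ≤ h (k - l) + h l := by
    have := hh.add (k - l) l
    rwa [sub_add_cancel] at this
  have c3 : h (k - l) ≤ h k + h l := by
    have := hh.add k (-l)
    rwa [← sub_eq_add_neg, hh.neg] at this
  have key : ∀ p q : Prop, ∀ x : ℝ, 0 ≤ x → |(if p then (1 : ℝ) else 0) - (if q then 1 else 0)| * x
      = if (p ↔ q) then 0 else x := by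
    intro p q x hx
    by_cases hp : p <;> by_cases hq : q <;> simp [hp, hq]
  unfold ind
  rw [key _ _ _ (norm_nonneg _)]
  simp only [mem_ofPred_eq]
  by_cases hk : 2 * M < h k
  · by_cases hm : 2 * M < h (k - l)
    · simp [hk, hm]
    · rw [if_neg (by simp [hk, hm])]
      by_cases hm2 : h (k - l) ≤ M
      · by_cases hl : 2 * M < h l
        · refine (b2.trans (le_of_eq ?_)).trans (le_self_add.trans (le_self_add.trans le_self_add))
          unfold res
          simp only [mem_ofPred_eq]
          rw [if_pos hk, if_pos hl, if_pos hm2]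
          ring
        · refine (b1.trans (le_of_eq ?_)).trans ((le_self_add.trans le_add_self).trans le_self_add)
          unfold res
          simp only [mem_ofPred_eq]
          rw [if_pos (by omega)]
          ring
      · refine (b1.trans (le_of_eq ?_)).trans ((le_add_self.trans le_add_self).trans le_self_add)
        unfold res
        simp only [mem_ofPred_eq]
        rw [if_pos (by omega)]
        ring
  · by_cases hm : 2 * M < h (k - l)
    · rw [if_neg (by simp [hk, hm])]
      by_cases hk2 : h k ≤ M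
      · by_cases hl : 2 * M < h l
        · refine (b1.trans (le_of_eq ?_)).trans (le_add_self.trans (le_self_add.trans le_self_add))
          unfold res
          simp only [mem_ofPred_eq]
          rw [if_pos hk2, if_pos hl, if_pos hm]
          ring
        · refine (b2.trans (le_of_eq ?_)).trans (le_self_add.trans le_add_self)
          unfold res
          simp only [mem_ofPred_eq]
          rw [if_pos (by omega)]
          ring
      · refine (b2.trans (le_of_eq ?_)).trans (le_add_self.trans le_add_self)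
        unfold res
        simp only [mem_ofPred_eq]
        rw [if_pos (by omega)]
        ring
    · simp [hk, hm]

lemma res_neg {W : Set K} (hW : ∀ k, -k ∈ W ↔ k ∈ W) {f : K → ℝ≥0∞} (hf : ∀ k, f (-k) = f k) (k : K) :
    res W f (-k) = res W f k := by
  unfold res
  by_cases h : k ∈ W
  · rw [if_pos h, if_pos ((hW k).2 h), hf]
  · rw [if_neg h, if_neg fun h' => h ((hW k).1 h')]

lemma res_zero {W : Set K} {f : K → ℝ≥0∞} (hf : f 0 = 0) : res W f 0 = 0 := by
  unfold res
  rw [hf]
  simp

lemma e2_N_le (W : Set K) (y : K → C3) :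
    e2 (fun l => N l * res W (E y) l) ≤ e2 (res W fun k => n k * E y k) := by
  refine e2_mono fun k => ?_
  unfold res
  split_ifs
  · exact mul_le_mul' (N_le_n k) le_rfl
  · simp

theorem t_L2 (h1 : St_tri) (h2 : St_B0) : Pool.Agent.Y6.St_L2 := by
  obtain ⟨C, hC, hB⟩ := h2
  refine ⟨4 * Real.pi * C + 4 * Real.pi * Real.sqrt Lam4, by have := Real.pi_pos; positivity, ?_⟩
  intro h H A hA hh M hM y hf
  set W : Set K := {k | 2 * M < h k} with hW
  set V : Set K := {k | h k ≤ M} with hV
  set b : Set K := {k | M < h k ∧ h k ≤ 2 * M} with hb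
  set w : K → ℝ≥0∞ := fun k => n k * E y k with hw
  have eW : ∀ k, res W (E y) (-k) = res W (E y) k :=
    res_neg (fun k => by simp only [hW, mem_ofPred_eq, hh.neg]) (E_neg hf.sym)
  have eb : ∀ k, res b (E y) (-k) = res b (E y) k :=
    res_neg (fun k => by simp only [hb, mem_ofPred_eq, hh.neg]) (E_neg hf.sym)
  have wneg : ∀ k, w (-k) = w k := fun k => by simp only [hw]; rw [n_neg, E_neg hf.sym]
  have eV : ∀ k, res V w (-k) = res V w k :=
    res_neg (fun k => by simp only [hV, mem_ofPred_eq, hh.neg]) wneg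
  -- the sum of the terms
  have s1 : ENNReal.ofReal |prdi (ind W) y| ≤ ENNReal.ofReal Real.pi *
      (2 * B (res V w) (res W (E y)) (res W (E y)) + 4 * B w (res b (E y)) (E y)) := by
    have ht := (h1 y (ind W) 1 0 hf (fun k => by
      unfold ind
      split_ifs <;> simp)).2
    refine ht.trans (mul_le_mul' le_rfl ?_)
    refine (ENNReal.tsum_le_tsum fun k => ENNReal.tsum_le_tsum fun l => term_le hh M hf k l).trans ?_
    change ∑' k, ∑' l, ((res W (E y) k * res W (E y) l * res V w (k - l)
        + res V w k * res W (E y) l * res W (E y) (k - l))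
      + (w k * res b (E y) l * E y (k - l) + w k * E y l * res b (E y) (k - l))
      + (E y k * res b (E y) l * w (k - l) + res b (E y) k * E y l * w (k - l))) ≤ _
    rw [tsum_tsum_add, tsum_tsum_add, tsum_tsum_add, tsum_tsum_add, tsum_tsum_add]
    rw [tt_eq _ _ _ eW, tt_eq _ _ _ eV, tt_eq _ _ _ wneg, tt_eq _ _ _ wneg,
      tt_eq _ _ _ (E_neg hf.sym), tt_eq _ _ _ eb]
    have r1 : B (res W (E y)) (res W (E y)) (res V w) = B (res V w) (res W (E y)) (res W (E y)) := by
      rw [B_swap23, B_swap12]
    have r2 : B w (E y) (res b (E y)) = B w (res b (E y)) (E y) := B_swap23 _ _ _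
    have r3 : B (E y) (res b (E y)) w = B w (res b (E y)) (E y) := by
      rw [B_swap23, B_swap12, B_swap23]
    have r4 : B (res b (E y)) (E y) w = B w (res b (E y)) (E y) := by
      rw [B_swap23, B_swap12]
    rw [r1, r2, r3, r4]
    refine le_of_eq ?_
    ring
  have s2 : B (res V w) (res W (E y)) (res W (E y)) ≤ ENNReal.ofReal (2 * C *
      Real.sqrt (A * M * XM h M y) * Real.sqrt (wn (ind W) y) *
          Real.sqrt (wn (fun k => ind W k * qk k) y)) := by
    have h3 := hB h H A hA hh M hM (res V w) (res W (E y)) (res W (E y)) (fun k hk => by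
      unfold res
      rw [if_neg (by simp only [hV, mem_ofPred_eq]; omega)]) (res_zero (E_zero hf.zero))
      (res_zero (E_zero hf.zero))
    rw [low_eq hf.rap h hM] at h3
    refine h3.trans ?_
    have h4 := e2_N_le W y
    rw [e2_w hf.rap W] at h4
    rw [e2_e hf.rap W]
    calc ENNReal.ofReal (C * Real.sqrt A) * ENNReal.ofReal (Real.sqrt (M * XM h M y)) *
        (ENNReal.ofReal (Real.sqrt (wn (ind W) y)) * e2 (fun l => N l * res W (E y) l)
          + ENNReal.ofReal (Real.sqrt (wn (ind W) y)) * e2 (fun l => N l * res W (E y) l))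
        ≤ ENNReal.ofReal (C * Real.sqrt A) * ENNReal.ofReal (Real.sqrt (M * XM h M y)) *
        (ENNReal.ofReal (Real.sqrt (wn (ind W) y)) *
            ENNReal.ofReal (Real.sqrt (wn (fun k => ind W k * qk k) y))
          + ENNReal.ofReal (Real.sqrt (wn (ind W) y)) *
            ENNReal.ofReal (Real.sqrt (wn (fun k => ind W k * qk k) y))) := by gcongr
      _ = _ := by
        rw [← ENNReal.ofReal_mul (Real.sqrt_nonneg _), ← ENNReal.ofReal_add (by positivity) (by positivity),
          ← ENNReal.ofReal_mul (by positivity), ← ENNReal.ofReal_mul (by positivity)]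
        congr 1
        rw [show A * M * XM h M y = A * (M * XM h M y) by ring, Real.sqrt_mul hA]
        ring
  have s3 : B w (res b (E y)) (E y) ≤ ENNReal.ofReal (Real.sqrt Lam4 * Real.sqrt (wn (ind b) y) *
      Real.sqrt (wn qk y) * Real.sqrt (wn (fun k => qk k ^ 2) y)) := by
    refine (B_young _ _ _).trans ?_
    have h3 : e2 w = ENNReal.ofReal (Real.sqrt (wn qk y)) := by
      have := e2_w hf.rap (y := y) univ
      have e1 : (res univ fun k => n k * E y k) = w := by
        funext k
        unfold res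
        simp [hw]
      have e2' : (fun k => ind univ k * qk k) = qk := by
        funext k
        unfold ind
        simp
      rwa [e1, e2'] at this
    rw [h3, e2_e hf.rap b]
    refine (mul_le_mul' le_rfl (l1_le hf)).trans (le_of_eq ?_)
    rw [← ENNReal.ofReal_mul (by positivity), ← ENNReal.ofReal_mul (by positivity)]
    congr 1
    ring
  have hp := Real.pi_pos
  have s4 : ENNReal.ofReal |prdi (ind W) y| ≤ ENNReal.ofReal (Real.pi * (2 * (2 * C *
      Real.sqrt (A * M * XM h M y) * Real.sqrt (wn (ind W) y) *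
          Real.sqrt (wn (fun k => ind W k * qk k) y)) + 4 * (Real.sqrt Lam4 * Real.sqrt (wn (ind b) y) *
      Real.sqrt (wn qk y) * Real.sqrt (wn (fun k => qk k ^ 2) y)))) := by
    refine s1.trans ?_
    rw [ENNReal.ofReal_mul hp.le]
    refine mul_le_mul' le_rfl ?_
    rw [ENNReal.ofReal_add (by positivity) (by positivity), ENNReal.ofReal_mul (p := 2) (by norm_num),
      ENNReal.ofReal_mul (p := 4) (by norm_num)]
    simp only [ENNReal.ofReal_ofNat]
    gcongr
  have s5 := (ENNReal.ofReal_le_ofReal_iff (by positivity)).1 s4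
  refine s5.trans ?_
  have x1 := Real.sqrt_nonneg (A * M * XM h M y)
  have x2 := Real.sqrt_nonneg (wn (ind W) y)
  have x3 := Real.sqrt_nonneg (wn (fun k => ind W k * qk k) y)
  have x4 := Real.sqrt_nonneg Lam4
  have x5 := Real.sqrt_nonneg (wn (ind b) y)
  have x6 := Real.sqrt_nonneg (wn qk y)
  have x7 := Real.sqrt_nonneg (wn (fun k => qk k ^ 2) y)
  have y1 : 0 ≤ 4 * Real.pi * Real.sqrt Lam4 * (Real.sqrt (A * M * XM h M y) * Real.sqrt (wn (ind W) y) *
          Real.sqrt (wn (fun k => ind W k * qk k) y)) := by positivity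
  have y2 : 0 ≤ 4 * Real.pi * C * (Real.sqrt (wn (ind b) y) *
      Real.sqrt (wn qk y) * Real.sqrt (wn (fun k => qk k ^ 2) y)) := by positivity
  nlinarith [y1, y2]

end Pool.Agent.Y197.NS
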