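import Pool.Agent.Y6.Stm7
import Pool.Agent.Y197.NS.L2

/-!
Production of the energy above a level, with the modes which are excited from below.
-/

open MeasureTheory Set
open scoped ENNReal

set_option autoImplicit false

namespace Pool.Agent.Y197.NS

open Pool.Agent.Y6
open Pool.Agent.H356R3.NS hiding K sq
open H459R3.NS (e2 N)

/-- the sum over `k` and `l` is a triad sum -/
lemma tt_eq' (α β γ : K → ℝ≥0∞) :
    ∑' k : K, ∑' l : K, α k * β l * γ (k - l) = B (fun k => α (-k)) β γ := by
  unfold B
  rw [← (Equiv.neg K).tsum_eq]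
  refine tsum_congr fun k => tsum_congr fun l => ?_
  simp only [Equiv.neg_apply]

lemma e2_reflect (α : K → ℝ≥0∞) : e2 (fun k => α (-k)) = e2 α := by
  unfold H459R3.NS.e2
  congr 1
  exact (Equiv.neg K).tsum_eq (fun k => α k ^ 2)

lemma E_eq_zero {y : K → C3} {k : K} (h : y k = 0) : E y k = 0 := by
  unfold E
  rw [h, en_zero, ENNReal.ofReal_zero]

open Classical in
lemma term_le_r {h : K → ℕ} {H A : ℝ} (hh : Height h H A) (M : ℕ) {y : K → C3} (hf : Fld y) {R : Set K}
    (hR : ∀ k l, h k ≤ M → h l ≤ M → M < h (k + l) → y k ≠ 0 → y l ≠ 0 → y (k + l) ≠ 0 → k + l ∈ R)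
    (k l : K) :
    ENNReal.ofReal (|ind {k | M < h k} k - ind {k | M < h k} (k - l)| * ‖tau y k l‖) ≤
      (res {k | M < h k} (E y) k * res {k | M < h k} (E y) l *
          res {k | h k ≤ M} (fun k => n k * E y k) (k - l)
        + res {k | h k ≤ M} (fun k => n k * E y k) k * res {k | M < h k} (E y) l *
          res {k | M < h k} (E y) (k - l))
      + ((n k * E y k) * E y l * res R (E y) (k - l)
        + res R (E y) k * E y l * (n (k - l) * E y (k - l))) := by
  obtain ⟨t1, t2⟩ := tau_le hf.div k l
  have b1 : ENNReal.ofReal ‖tau y k l‖ ≤ n k * E y l * (E y k * E y (k - l)) := by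
    unfold n E
    rw [← ENNReal.ofReal_mul (nk_nonneg _), ← ENNReal.ofReal_mul (en_nonneg _),
      ← ENNReal.ofReal_mul (mul_nonneg (nk_nonneg _) (en_nonneg _))]
    exact ENNReal.ofReal_le_ofReal t1
  have b2 : ENNReal.ofReal ‖tau y k l‖ ≤ n (k - l) * E y l * (E y k * E y (k - l)) := by
    unfold n E
    rw [← ENNReal.ofReal_mul (nk_nonneg _), ← ENNReal.ofReal_mul (en_nonneg _),
      ← ENNReal.ofReal_mul (mul_nonneg (nk_nonneg _) (en_nonneg _))]
    exact ENNReal.ofReal_le_ofReal t2
  have b0 : (y k = 0 ∨ y l = 0 ∨ y (k - l) = 0) → ENNReal.ofReal ‖tau y k l‖ ≤ 0 := by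
    rintro (h0 | h0 | h0)
    · exact b1.trans (le_of_eq (by rw [E_eq_zero h0]; simp))
    · exact b1.trans (le_of_eq (by rw [E_eq_zero h0]; simp))
    · exact b1.trans (le_of_eq (by rw [E_eq_zero h0]; simp))
  have key : ∀ p q : Prop, ∀ x : ℝ, 0 ≤ x → |(if p then (1 : ℝ) else 0) - (if q then 1 else 0)| * x
      = if (p ↔ q) then 0 else x := by
    intro p q x hx
    by_cases hp : p <;> by_cases hq : q <;> simp [hp, hq]
  unfold ind
  rw [key _ _ _ (norm_nonneg _)]
  simp only [mem_ofPred_eq]
  by_cases hk : M < h k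
  · by_cases hm : M < h (k - l)
    · simp [hk, hm]
    · rw [if_neg (by simp [hk, hm])]
      by_cases hl : M < h l
      · refine (b2.trans (le_of_eq ?_)).trans (le_self_add.trans le_self_add)
        unfold res
        simp only [mem_ofPred_eq]
        rw [if_pos hk, if_pos hl, if_pos (by omega)]
        ring
      · by_cases h0 : y k = 0 ∨ y l = 0 ∨ y (k - l) = 0
        · exact (b0 h0).trans zero_le
        · push Not at h0
          have e : (k - l) + l = k := by abel
          have hkR : k ∈ R := by
            have := hR (k - l) l (by omega) (by omega) (by rw [e]; exact hk) h0.2.2 h0.2.1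
              (by rw [e]; exact h0.1)
            rwa [e] at this
          refine (b2.trans (le_of_eq ?_)).trans (le_add_self.trans le_add_self)
          unfold res
          rw [if_pos hkR]
          ring
  · by_cases hm : M < h (k - l)
    · rw [if_neg (by simp [hk, hm])]
      by_cases hl : M < h l
      · refine (b1.trans (le_of_eq ?_)).trans (le_add_self.trans le_self_add)
        unfold res
        simp only [mem_ofPred_eq]
        rw [if_pos (by omega), if_pos hl, if_pos hm]
        ring
      · by_cases h0 : y k = 0 ∨ y l = 0 ∨ y (k - l) = 0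
        · exact (b0 h0).trans zero_le
        · push Not at h0
          have e : k + -l = k - l := by abel
          have hl0 : y (-l) ≠ 0 := by
            intro h1
            apply h0.2.1
            have h2 := hf.sym l
            funext i
            have h3 := hf.sym l i
            rw [h1] at h3
            have h4 : star (y l i) = 0 := by rw [← h3]; rfl
            simpa using h4
          have hmR : k - l ∈ R := by
            have := hR k (-l) (by omega) (by rw [hh.neg]; omega) (by rw [e]; exact hm) h0.1 hl0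
              (by rw [e]; exact h0.2.2)
            rwa [e] at this
          refine (b1.trans (le_of_eq ?_)).trans (le_self_add.trans le_add_self)
          unfold res
          rw [if_pos hmR]
          ring
    · simp [hk, hm]

theorem t_L2r (h1 : St_tri) (h2 : St_B0) : Pool.Agent.Y6.St_L2r := by
  obtain ⟨C, hC, hB⟩ := h2
  refine ⟨4 * Real.pi * C + 2 * Real.pi * Real.sqrt Lam4, by have := Real.pi_pos; positivity, ?_⟩
  intro h H A hA hh M hM y R hf hR
  set W : Set K := {k | M < h k} with hW
  set V : Set K := {k | h k ≤ M} with hV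
  set w : K → ℝ≥0∞ := fun k => n k * E y k with hw
  have eW : ∀ k, res W (E y) (-k) = res W (E y) k :=
    res_neg (fun k => by simp only [hW, mem_ofPred_eq, hh.neg]) (E_neg hf.sym)
  have wneg : ∀ k, w (-k) = w k := fun k => by simp only [hw]; rw [n_neg, E_neg hf.sym]
  have eV : ∀ k, res V w (-k) = res V w k :=
    res_neg (fun k => by simp only [hV, mem_ofPred_eq, hh.neg]) wneg
  -- the sum of the terms
  have s1 : ENNReal.ofReal |prdi (ind W) y| ≤ ENNReal.ofReal Real.pi *
      (2 * B (res V w) (res W (E y)) (res W (E y)) + (B w (E y) (res R (E y)) +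
        B (fun k => res R (E y) (-k)) (E y) w)) := by
    have ht := (h1 y (ind W) 1 0 hf (fun k => by
      unfold ind
      split_ifs <;> simp)).2
    refine ht.trans (mul_le_mul' le_rfl ?_)
    refine (ENNReal.tsum_le_tsum fun k => ENNReal.tsum_le_tsum fun l => term_le_r hh M hf hR k l).trans ?_
    change ∑' k, ∑' l, ((res W (E y) k * res W (E y) l * res V w (k - l)
        + res V w k * res W (E y) l * res W (E y) (k - l))
      + (w k * E y l * res R (E y) (k - l) + res R (E y) k * E y l * w (k - l))) ≤ _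
    rw [tsum_tsum_add, tsum_tsum_add, tsum_tsum_add]
    rw [tt_eq _ _ _ eW, tt_eq _ _ _ eV, tt_eq _ _ _ wneg, tt_eq']
    have r1 : B (res W (E y)) (res W (E y)) (res V w) = B (res V w) (res W (E y)) (res W (E y)) := by
      rw [B_swap23, B_swap12]
    rw [r1]
    refine le_of_eq ?_
    ring
  have s2 : B (res V w) (res W (E y)) (res W (E y)) ≤ ENNReal.ofReal (2 * C *
      Real.sqrt (A * M * XM h M y) * Real.sqrt (wn (ind W) y) *
          Real.sqrt (wn (fun k => ind W k * qk k) y)) := by
    have h3 := hB h H A hA hh M hM (res V w) (res W (E y)) (res W (E y)) (fun k hk => by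
      unfold res
      rw [if_neg (by simp only [hV, mem_ofPred_eq]; omega)]) (res_zero (E_zero hf.zero))
      (res_zero (E_zero hf.zero))
    rw [low_eq hf.rap h hM] at h3
    refine h3.trans ?_
    have h4 := e2_N_le W y
    rw [e2_w hf.rap W] at h4
    rw [e2_e hf.rap W]
    calc ENNReal.ofReal (C * Real.sqrt A) * ENNReal.ofReal (Real.sqrt (M * XM h M y)) *
        (ENNReal.ofReal (Real.sqrt (wn (ind W) y)) * e2 (fun l => N l * res W (E y) l)
          + ENNReal.ofReal (Real.sqrt (wn (ind W) y)) * e2 (fun l => N l * res W (E y) l))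
        ≤ ENNReal.ofReal (C * Real.sqrt A) * ENNReal.ofReal (Real.sqrt (M * XM h M y)) *
        (ENNReal.ofReal (Real.sqrt (wn (ind W) y)) *
            ENNReal.ofReal (Real.sqrt (wn (fun k => ind W k * qk k) y))
          + ENNReal.ofReal (Real.sqrt (wn (ind W) y)) *
            ENNReal.ofReal (Real.sqrt (wn (fun k => ind W k * qk k) y))) := by gcongr
      _ = _ := by
        rw [← ENNReal.ofReal_mul (Real.sqrt_nonneg _), ← ENNReal.ofReal_add (by positivity) (by positivity),
          ← ENNReal.ofReal_mul (by positivity), ← ENNReal.ofReal_mul (by positivity)]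
        congr 1
        rw [show A * M * XM h M y = A * (M * XM h M y) by ring, Real.sqrt_mul hA]
        ring
  have hew : e2 w = ENNReal.ofReal (Real.sqrt (wn qk y)) := by
    have := e2_w hf.rap (y := y) univ
    have e1 : (res univ fun k => n k * E y k) = w := by
      funext k
      unfold res
      simp [hw]
    have e2' : (fun k => ind univ k * qk k) = qk := by
      funext k
      unfold ind
      simp
    rwa [e1, e2'] at this
  have s30 : e2 w * e2 (res R (E y)) * ∑' k, E y k ≤ ENNReal.ofReal (Real.sqrt Lam4 *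
      Real.sqrt (wn (ind R) y) * Real.sqrt (wn qk y) * Real.sqrt (wn (fun k => qk k ^ 2) y)) := by
    rw [hew, e2_e hf.rap R]
    refine (mul_le_mul' le_rfl (l1_le hf)).trans (le_of_eq ?_)
    rw [← ENNReal.ofReal_mul (by positivity), ← ENNReal.ofReal_mul (by positivity)]
    congr 1
    ring
  have s3 : B w (E y) (res R (E y)) ≤ ENNReal.ofReal (Real.sqrt Lam4 *
      Real.sqrt (wn (ind R) y) * Real.sqrt (wn qk y) * Real.sqrt (wn (fun k => qk k ^ 2) y)) := by
    rw [B_swap23]
    exact (B_young _ _ _).trans s30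
  have s3' : B (fun k => res R (E y) (-k)) (E y) w ≤ ENNReal.ofReal (Real.sqrt Lam4 *
      Real.sqrt (wn (ind R) y) * Real.sqrt (wn qk y) * Real.sqrt (wn (fun k => qk k ^ 2) y)) := by
    rw [B_swap23, B_swap12]
    refine (B_young _ _ _).trans ?_
    rw [e2_reflect (res R (E y))]
    exact s30
  have hp := Real.pi_pos
  have s4 : ENNReal.ofReal |prdi (ind W) y| ≤ ENNReal.ofReal (Real.pi * (2 * (2 * C *
      Real.sqrt (A * M * XM h M y) * Real.sqrt (wn (ind W) y) *
          Real.sqrt (wn (fun k => ind W k * qk k) y)) + ((Real.sqrt Lam4 * Real.sqrt (wn (ind R) y) *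
      Real.sqrt (wn qk y) * Real.sqrt (wn (fun k => qk k ^ 2) y)) + (Real.sqrt Lam4 *
      Real.sqrt (wn (ind R) y) * Real.sqrt (wn qk y) * Real.sqrt (wn (fun k => qk k ^ 2) y))))) := by
    refine s1.trans ?_
    rw [ENNReal.ofReal_mul hp.le]
    refine mul_le_mul' le_rfl ?_
    rw [ENNReal.ofReal_add (by positivity) (by positivity),
      ENNReal.ofReal_add (by positivity) (by positivity), ENNReal.ofReal_mul (p := 2) (by norm_num)]
    simp only [ENNReal.ofReal_ofNat]
    gcongr
  have s5 := (ENNReal.ofReal_le_ofReal_iff (by positivity)).1 s4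
  refine s5.trans ?_
  have x1 := Real.sqrt_nonneg (A * M * XM h M y)
  have x2 := Real.sqrt_nonneg (wn (ind W) y)
  have x3 := Real.sqrt_nonneg (wn (fun k => ind W k * qk k) y)
  have x4 := Real.sqrt_nonneg Lam4
  have x5 := Real.sqrt_nonneg (wn (ind R) y)
  have x6 := Real.sqrt_nonneg (wn qk y)
  have x7 := Real.sqrt_nonneg (wn (fun k => qk k ^ 2) y)
  have y1 : 0 ≤ 2 * Real.pi * Real.sqrt Lam4 * (Real.sqrt (A * M * XM h M y) * Real.sqrt (wn (ind W) y) *
          Real.sqrt (wn (fun k => ind W k * qk k) y)) := by positivity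
  have y2 : 0 ≤ 4 * Real.pi * C * (Real.sqrt (wn (ind R) y) *
      Real.sqrt (wn qk y) * Real.sqrt (wn (fun k => qk k ^ 2) y)) := by positivity
  nlinarith [y1, y2]

theorem t_L2g (h1 : St_tri) (h2 : St_B0) : Pool.Agent.Y6.St_L2g := by
  obtain ⟨C, hC, hB⟩ := t_L2r h1 h2
  refine ⟨C, hC, fun h H A hA hh M hM y hf => ?_⟩
  exact hB h H A hA hh M hM y _ hf fun k l hk hl hkl _ _ _ => by
    have := hh.add k l
    exact ⟨hkl, by omega⟩

theorem t_L2c (h1 : St_tri) (h2 : St_B0) : Pool.Agent.Y6.St_L2c := by
  obtain ⟨C, hC, hB⟩ := t_L2r h1 h2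
  refine ⟨C, hC, fun h H A hA hh M hM y hf hc => ?_⟩
  have := hB h H A hA hh M hM y ∅ hf fun k l hk hl hkl a b c => by
    rcases hc k l hk hl hkl with h0 | h0 | h0
    · exact absurd h0 a
    · exact absurd h0 b
    · exact absurd h0 c
  have e : wn (ind ∅) y = 0 := by
    unfold wn ind
    simp
  rw [e] at this
  simpa using this

end Pool.Agent.Y197.NS
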